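import Pool.Agent.helper51.VR.Spec

/-!
Row vr:REL: the same set `V` with another order and other primes `w`.
-/

set_option autoImplicit false
set_option linter.unusedSectionVars false

namespace Pool.Agent.VR

open Pool.Agent.RB NumberField IsDedekindDomain Module
open scoped nonZeroDivisors Real Classical IsMulCommutative

section

variable {F H : Type} [Field F] [NumberField F] [Field H] [NumberField H] [Algebra F H]
  [IsAbelianGalois F H]

theorem REL_toQ (a b : MonoidAlgebra ℤ (H ≃ₐ[F] H)) : toQ (a * b) = toQ a * toQ b :=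
  map_mul (MonoidAlgebra.mapRingHom (H ≃ₐ[F] H) (Int.castRingHom ℚ)) a b

theorem REL_cancel (τ : H ≃ₐ[F] H) (a : MonoidAlgebra ℤ (H ≃ₐ[F] H)) :
    MonoidAlgebra.single τ 1 * (MonoidAlgebra.single τ⁻¹ 1 * a) = a := by
  rw [← mul_assoc, MonoidAlgebra.single_mul_single, mul_inv_cancel, one_mul]
  exact one_mul a

end

theorem REL (hPWR : PWR_stmt) (hFCT : FCT_stmt) : REL_stmt := by
  intro F H _ _ _ _ _ _ _ r D D' hS hT hV Θ hRub
  obtain ⟨-, -, -, f4, -, -, -, f8⟩ := hFCT F H r D
  obtain ⟨-, p2, -, -⟩ := hPWR F H (D.T : Set (HOS F)) (Set.range D.v)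
  have hU : UU D' = UU D := by
    unfold UU
    rw [hT, hV]
  have hc : D'.c = D.c := RData_c_eq D' D
  have he : ∀ j, ∃ i, D.v i = D'.v j := by
    intro j
    have : D'.v j ∈ Set.range D.v := by
      rw [← hV]
      exact ⟨j, rfl⟩
    exact this
  choose e₀ he₀ using he
  have hinj : Function.Injective e₀ := by
    intro i j hij
    apply D'.hv
    rw [← he₀, ← he₀, hij]
  let e : Fin r ≃ Fin r := Equiv.ofBijective e₀ (Finite.injective_iff_bijective.1 hinj)
  have hev : ∀ j, D.v (e j) = D'.v j := he₀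
  have hτ : ∀ j, ∃ σ : H ≃ₐ[F] H, act (σ : H ≃+* H) (D.w (e j)) = D'.w j := by
    intro j
    refine (f4 (e j) (D'.w j)).1 ?_
    rw [hev]
    exact D'.hw j
  choose τ hτ using hτ
  have hord : ∀ (j : Fin r) (x : H),
      ordZ F (D.w (e j)) x = MonoidAlgebra.single (τ j) 1 * ordZ F (D'.w j) x := by
    intro j x
    rw [← hτ j, f8, REL_cancel]
  intro n u' hDS φ' hφ'
  obtain ⟨hn, hu, hou⟩ := hDS
  let u : Fin r → Hˣ := fun k => pw (MonoidAlgebra.single (τ (e.symm k))⁻¹ 1) (u' (e.symm k))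
  have huU : ∀ j, u' j ∈ Ut F H (D.T : Set (HOS F)) (Set.range D.v) := by
    intro j
    have h := (hu j).1
    rw [hU] at h
    exact h
  have hDSD : DS D n u := by
    refine ⟨hn, fun k => ⟨?_, ?_⟩, fun i k => ?_⟩
    · exact (p2 _ _).1 (huU _)
    · refine (p2 _ _).2.2.2 D.c ?_
      have h := (hu (e.symm k)).2
      rw [hc] at h
      exact h
    · change ordZ F (D.w i) ((pw (MonoidAlgebra.single (τ (e.symm k))⁻¹ 1) (u' (e.symm k)) : Hˣ) : H) = _
      rw [(p2 _ _).2.2.1]
      obtain ⟨i', rfl⟩ := e.surjective i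
      obtain ⟨k', rfl⟩ := e.surjective k
      rw [e.symm_apply_apply, hord, hou]
      by_cases h : i' = k'
      · subst h
        rw [if_pos rfl, if_pos rfl, hc, mul_left_comm, REL_cancel]
      · rw [if_neg h, if_neg fun h' => h (e.injective h'), mul_zero, mul_zero]
  let φ : Fin r → Hˣ → MonoidAlgebra ℤ (H ≃ₐ[F] H) := fun k => φ' (e.symm k)
  have hφ : ∀ i, IsGH (UU D) (φ i) := by
    intro i
    have h := hφ' (e.symm i)
    rw [hU] at h
    exact h
  obtain ⟨d, y, hd, hy⟩ := hRub n u hDSD φ hφ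
  -- the determinants
  have hdet : Matrix.det (fun i j => φ' i (u' j)) =
      (∏ j, MonoidAlgebra.single (τ j) 1) * Matrix.det (fun i j => φ i (u j)) := by
    have h1 : Matrix.det (fun i j => φ i (u j)) =
        Matrix.det (Matrix.of fun i j => MonoidAlgebra.single (τ j)⁻¹ 1 *
          (Matrix.of fun i j => φ' i (u' j)) i j) := by
      rw [← Matrix.det_submatrix_equiv_self e]
      congr 1
      refine Matrix.ext fun i j => ?_
      change φ' (e.symm (e i)) (pw (MonoidAlgebra.single (τ (e.symm (e j)))⁻¹ 1) (u' (e.symm (e j)))) =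
        MonoidAlgebra.single (τ j)⁻¹ 1 * φ' i (u' j)
      rw [e.symm_apply_apply, e.symm_apply_apply]
      have h := hφ' i
      rw [hU] at h
      exact (p2 _ _).2.1 (φ' i) (huU j) h
    rw [h1, Matrix.det_mul_row, ← mul_assoc, ← Finset.prod_mul_distrib]
    have h2 : ∀ j : Fin r, (MonoidAlgebra.single (τ j) 1 : MonoidAlgebra ℤ (H ≃ₐ[F] H)) *
        MonoidAlgebra.single (τ j)⁻¹ 1 = 1 := by
      intro j
      have := REL_cancel (τ j) (1 : MonoidAlgebra ℤ (H ≃ₐ[F] H))
      rw [mul_one] at this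
      exact this
    rw [Finset.prod_congr rfl fun j _ => h2 j, Finset.prod_const_one, one_mul]
    rfl
  refine ⟨d, (∏ j, MonoidAlgebra.single (τ j) 1) * y, hd, ?_⟩
  rw [hdet, REL_toQ, REL_toQ]
  calc (d : QGr F H) * (Θ * (toQ (∏ j, MonoidAlgebra.single (τ j) 1) *
        toQ (Matrix.det (fun i j => φ i (u j)))))
      = toQ (∏ j, MonoidAlgebra.single (τ j) 1) * ((d : QGr F H) * (Θ *
        toQ (Matrix.det (fun i j => φ i (u j))))) := by ring
    _ = ((2 * n) ^ r : ℕ) * (toQ (∏ j, MonoidAlgebra.single (τ j) 1) * toQ y) := by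
        rw [hy]
        ring

end Pool.Agent.VR
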